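import Pool.Agent.Lib.Pa1e8df.NoCorr
import Pool.Agent.Lib.Pa1e8df.Build

/-!
# MP_a1e8df_an, Q2: an icc, non inner amenable group `G` with `L(G)` not pseudocompact

The group is the subgroup of `(ℤ → F) ⋊ ℤ` (`F` free on two generators) generated by the constant
functions, the copy of `F` at position `0` and the shift `t`.  In `L(G)` the set of the
multiples of the `λ(t^m)`, `m ≠ 0`, by phases is definable and discrete modulo phases, because of
spectral gap; in a matrix algebra such a set is finite modulo phases, but `m ↦ 2 m` is injective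
and not surjective.
-/

set_option autoImplicit false

open Filter
open scoped InnerProductSpace

namespace Pool.Agent.Results.MP_a1e8df_an.NotPseudocompact

universe u v

/-- Every non-identity conjugacy class is infinite. -/
def ICC (G : Type) [Group G] : Prop :=
  ∀ g : G, g ≠ 1 → {k : G | ∃ h : G, k = h * g * h⁻¹}.Infinite

/-- There is a conjugation-invariant finitely additive probability measure on `G \ {1}`. -/
def InnerAmenable (G : Type) [Group G] : Prop :=
  ∃ μ : Set G → ℝ, (∀ A, 0 ≤ μ A) ∧ μ Set.univ = 1 ∧ μ {1} = 0 ∧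
    (∀ A B, Disjoint A B → μ (A ∪ B) = μ A + μ B) ∧
    (∀ (g : G) (A : Set G), μ ((fun x => g * x * g⁻¹) '' A) = μ A)

/-- The Hilbert space `ℓ²(G)`. -/
abbrev Hil (G : Type) : Type := lp (fun _ : G => ℂ) 2

/-- Scalars commute (a name for the library's instance). -/
instance scalComm (G : Type) : SMulCommClass ℂ ℂ (Hil G) := inferInstance

/-- The bounded operators on `ℓ²(G)`. -/
abbrev Op (G : Type) : Type := Hil G →L[ℂ] Hil G

/-- The operators on `ℂⁿ`, that is, the `n × n` matrices. -/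
abbrev Mat (n : ℕ) : Type := EuclideanSpace ℂ (Fin n) →L[ℂ] EuclideanSpace ℂ (Fin n)

/-- The left translations. -/
def Trans (G : Type) [Group G] : Set (Op G) :=
  {T : Op G | ∃ g : G, ∀ (f : Hil G) (h : G), T f h = f (g⁻¹ * h)}

/-- The group von Neumann algebra `L(G)`: the bicommutant of the left translations. -/
def VN (G : Type) [Group G] : Set (Op G) := Set.centralizer (Set.centralizer (Trans G))

open Classical in
/-- The trace vector. -/
noncomputable def tv (G : Type) [Group G] : Hil G := lp.single 2 (1 : G) (1 : ℂ)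

/-- The trace of `L(G)`. -/
noncomputable def trc {G : Type} [Group G] (x : Op G) : ℂ := ⟪tv G, x (tv G)⟫_ℂ

/-- The 2-norm of `L(G)`. -/
noncomputable def nrm2 {G : Type} [Group G] (x : Op G) : ℝ := ‖x (tv G)‖

/-- The square of the 2-norm of matrices, for the normalised trace. -/
noncomputable def hs2 {n : ℕ} (x : Mat n) : ℝ :=
  (∑ k : Fin n, ‖x (EuclideanSpace.single k (1 : ℂ))‖ ^ 2) / (n : ℝ)

/-- Property Gamma for the subalgebra `N` of `A`, with trace `t` and 2-norm `q`. -/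
def GammaOn {A : Type} [Ring A] [Star A] (N : Set A) (t : A → ℂ) (q : A → ℝ) : Prop :=
  ∀ S : Finset A, (↑S : Set A) ⊆ N → ∀ ε : ℝ, 0 < ε →
    ∃ w ∈ N, star w * w = 1 ∧ w * star w = 1 ∧ t w = 0 ∧ ∀ x ∈ S, q (w * x - x * w) < ε

/-- Property Gamma of `L(G)`. -/
def PropertyGamma (G : Type) [Group G] : Prop := GammaOn (VN G) trc nrm2

/-- Bounded families in `L(G)`: the representatives of the elements of an ultrapower. -/
def BddN {G : Type} [Group G] {I : Type u} (x : I → Op G) : Prop :=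
  (∀ i, x i ∈ VN G) ∧ ∃ C : ℝ, ∀ i, ‖x i‖ ≤ C

/-- Two families define the same element of the tracial ultrapower of `L(G)` along `U₁`. -/
def EqN {G : Type} [Group G] {I : Type u} (U₁ : Ultrafilter I) (x x' : I → Op G) : Prop :=
  ∀ ε : ℝ, 0 < ε → ∀ᶠ i in (U₁ : Filter I), nrm2 (x i - x' i) < ε

/-- Bounded families of matrices: the representatives of the elements of an ultrapower of the
matrix ultraproduct. -/
def BddM {J : Type v} (y : J → (n : ℕ) → Mat n) : Prop := ∃ C : ℝ, ∀ j n, ‖y j n‖ ≤ C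

/-- Two families define the same element of the ultrapower along `U₂` of the tracial ultraproduct
along `U` of the matrix algebras with their normalised traces. -/
def EqM {J : Type v} (U : Ultrafilter ℕ) (U₂ : Ultrafilter J) (y y' : J → (n : ℕ) → Mat n) :
    Prop :=
  ∀ ε : ℝ, 0 < ε →
    ∀ᶠ j in (U₂ : Filter J), ∀ᶠ n in (U : Filter ℕ), hs2 (y j n - y' j n) < ε

/-- `Φ` induces an isomorphism of `*`-algebras from the quotient by `E` of the subalgebra `P` of
`A` onto the quotient by `F` of the subalgebra `Q` of `B`. -/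
def StarIso {A : Type u} {B : Type v} [Ring A] [Star A] [SMul ℂ A] [Ring B] [Star B] [SMul ℂ B]
    (P : A → Prop) (E : A → A → Prop) (Q : B → Prop) (F : B → B → Prop) (Φ : A → B) : Prop :=
  (∀ x, P x → Q (Φ x)) ∧
  (∀ x x', P x → P x' → (E x x' ↔ F (Φ x) (Φ x'))) ∧
  (∀ y, Q y → ∃ x, P x ∧ F (Φ x) y) ∧
  (∀ x x', P x → P x' → F (Φ (x + x')) (Φ x + Φ x') ∧ F (Φ (x * x')) (Φ x * Φ x')) ∧
  (∀ x, P x → F (Φ (star x)) (star (Φ x)) ∧ ∀ c : ℂ, F (Φ (c • x)) (c • Φ x))

/-- The ultrapower of `L(G)` along `U₁` and the ultrapower along `U₂` of the matrix ultraproduct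
along `U` are isomorphic as `*`-algebras; the isomorphism is given on representatives. -/
def UltrapowersIso (G : Type) [Group G] {I : Type u} {J : Type v} (U : Ultrafilter ℕ)
    (U₁ : Ultrafilter I) (U₂ : Ultrafilter J) : Prop :=
  ∃ Φ : (I → Op G) → (J → (n : ℕ) → Mat n), StarIso BddN (EqN U₁) BddM (EqM U U₂) Φ

/-- `L(G)` is pseudocompact: for some non-principal ultrafilter `U` on `ℕ`, some ultrapower of
`L(G)` is isomorphic to some ultrapower of the matrix ultraproduct along `U`. -/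
def Pseudocompact (G : Type) [Group G] : Prop :=
  ∃ U : Ultrafilter ℕ, (U : Filter ℕ) ≤ cofinite ∧
    ∃ (I : Type u) (J : Type v) (U₁ : Ultrafilter I) (U₂ : Ultrafilter J),
      UltrapowersIso G U U₁ U₂

section glue

variable {I : Type u} {J : Type v}

/-- The ultrafilter on `J × ℕ` obtained by iteration. -/
def iter (U : Ultrafilter ℕ) (U₂ : Ultrafilter J) : Ultrafilter (J × ℕ) :=
  U₂.bind fun j => U.map (Prod.mk j)

theorem no_iso (U : Ultrafilter ℕ) (U₁ : Ultrafilter I) (U₂ : Ultrafilter J)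
    (h : UltrapowersIso Pool.Agent.Pa1e8.G U U₁ U₂) : False := by
  obtain ⟨Φ, hb, heq, hsurj, hop, hst⟩ := h
  refine Pool.Agent.Pa1e8.no_corr (Pool.Agent.Pa1e8.corr_of_iso (U₁ := U₁) (V := iter U U₂)
    (n := fun k : J × ℕ => k.2) (fun x k => Φ x k.1 k.2) ?_ ?_ ?_ ?_ ?_ ?_ ?_)
  · intro x hx
    obtain ⟨C, hC⟩ := hb x hx
    exact ⟨C, fun k => hC k.1 k.2⟩
  · intro x x' hx hx'
    exact heq x x' hx hx'
  · rintro y ⟨C, hC⟩
    obtain ⟨x, hx, h⟩ := hsurj (fun j n => y (j, n)) ⟨C, fun j n => hC (j, n)⟩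
    exact ⟨x, hx, h⟩
  · intro x x' hx hx'
    exact (hop x x' hx hx').1
  · intro x x' hx hx'
    exact (hop x x' hx hx').2
  · intro x hx
    exact (hst x hx).1
  · intro x hx c
    exact (hst x hx).2 c

end glue

theorem not_gamma : ¬ PropertyGamma Pool.Agent.Pa1e8.G := by
  classical
  intro h
  obtain ⟨w, hw, h1, h2, h3, h4⟩ := h {Pool.Agent.Pa1e8.lam Pool.Agent.Pa1e8.ac,
    Pool.Agent.Pa1e8.lam Pool.Agent.Pa1e8.bc, Pool.Agent.Pa1e8.lam Pool.Agent.Pa1e8.a0,
    Pool.Agent.Pa1e8.lam Pool.Agent.Pa1e8.b0} (by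
      intro x hx
      simp only [Finset.coe_insert, Finset.coe_singleton, Set.mem_insert_iff,
        Set.mem_singleton_iff] at hx
      rcases hx with rfl | rfl | rfl | rfl <;> exact Pool.Agent.Pa1e8.lam_mem _) (1 / 20)
    (by norm_num)
  have hn : ‖w (Pool.Agent.Pa1e8.dl Pool.Agent.Pa1e8.G)‖ = 1 := by
    have e1 := Pool.Agent.Pa1e8.inner_dl_star_mul w
    rw [h1] at e1
    have e2 : ⟪Pool.Agent.Pa1e8.dl Pool.Agent.Pa1e8.G,
        (1 : Hil Pool.Agent.Pa1e8.G →L[ℂ] Hil Pool.Agent.Pa1e8.G)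
          (Pool.Agent.Pa1e8.dl Pool.Agent.Pa1e8.G)⟫_ℂ = 1 := by
      show ⟪Pool.Agent.Pa1e8.dl Pool.Agent.Pa1e8.G, Pool.Agent.Pa1e8.dl Pool.Agent.Pa1e8.G⟫_ℂ = 1
      rw [inner_self_eq_norm_sq_to_K, Pool.Agent.Pa1e8.norm_dl_one]
      norm_num
    rw [e2] at e1
    have e3 : ‖w (Pool.Agent.Pa1e8.dl Pool.Agent.Pa1e8.G)‖ ^ 2 = 1 := by
      exact_mod_cast e1.symm
    have e4 := norm_nonneg (w (Pool.Agent.Pa1e8.dl Pool.Agent.Pa1e8.G))
    nlinarith
  have key := Pool.Agent.Pa1e8.non_gamma w hw h3 hn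
  have sw : ∀ g : Pool.Agent.Pa1e8.G,
      ‖(Pool.Agent.Pa1e8.lam g * w - w * Pool.Agent.Pa1e8.lam g)
        (Pool.Agent.Pa1e8.dl Pool.Agent.Pa1e8.G)‖ =
      nrm2 (w * Pool.Agent.Pa1e8.lam g - Pool.Agent.Pa1e8.lam g * w) := by
    intro g
    have e : Pool.Agent.Pa1e8.lam g * w - w * Pool.Agent.Pa1e8.lam g =
        -(w * Pool.Agent.Pa1e8.lam g - Pool.Agent.Pa1e8.lam g * w) := (neg_sub _ _).symm
    rw [e]
    exact norm_neg _
  rw [sw, sw, sw, sw] at key
  rcases key with k | k | k | k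
  · exact absurd (h4 _ (by simp)) (not_lt.mpr k.le)
  · exact absurd (h4 _ (by simp)) (not_lt.mpr k.le)
  · exact absurd (h4 _ (by simp)) (not_lt.mpr k.le)
  · exact absurd (h4 _ (by simp)) (not_lt.mpr k.le)

/-- There is a finitely generated icc group, not inner amenable, whose group von Neumann algebra
is (a non-Gamma II₁ factor and) not pseudocompact. -/
theorem result : ∃ (G : Type) (_ : Group G), Countable G ∧ Group.FG G ∧ Infinite G ∧
    ICC G ∧ ¬ InnerAmenable G ∧ ¬ PropertyGamma G ∧ ¬ Pseudocompact.{u, v} G := by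
  refine ⟨Pool.Agent.Pa1e8.G, inferInstance, inferInstance, inferInstance, ?_, ?_, ?_, ?_, ?_⟩
  · exact Infinite.of_injective _ Pool.Agent.Pa1e8.tt_injective
  · exact Pool.Agent.Pa1e8.icc
  · exact Pool.Agent.Pa1e8.not_innerAmenable
  · exact not_gamma
  · rintro ⟨U, -, I, J, U₁, U₂, h⟩
    exact no_iso U U₁ U₂ h

end Pool.Agent.Results.MP_a1e8df_an.NotPseudocompact
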